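import Pool.Agent.KS7_39.D56.Pow

/-!
# Images of episturmian words under `a ↦ ζ(a)^{m(a)}`, with erased letters
-/

set_option autoImplicit false

namespace Pool.Agent.KS7_39.D56

open List
open Pool.Agent.Results.MP_8d80dd_co.ProjectionRich

variable {A B : Type*}

theorem chainE {c : B} {ζ : A → B} {m : A → ℕ} {a : A} (hca : ζ a = c) (hma : 1 ≤ m a) :
    ∀ w : List A, (∀ b b', [b, b'] <:+: w → b = a ∨ b' = a) →
      List.IsChain (fun p q : B × ℕ => p = (c, 1) ∨ q = (c, 1))
        (w.flatMap fun b => List.replicate (mm c ζ m b) (mb c ζ m b)) := by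
  intro w
  induction w with
  | nil => intro _; simp
  | cons b w ih =>
    intro hw
    rw [List.flatMap_cons, List.isChain_append]
    refine ⟨?_, ih fun d d' hd => hw d d' (hd.trans ⟨[b], [], by simp⟩), ?_⟩
    · by_cases hb : ζ b = c
      · have : mb c ζ m b = (c, 1) := by simp [mb, hb]
        rw [this]
        exact List.isChain_replicate_of_rel _ (Or.inl rfl)
      · have : mm c ζ m b = 1 := by simp [mm, hb]
        rw [this]
        simp
    · intro x hx y hy
      by_cases hb : ζ b = c
      · left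
        have h1 : x ∈ List.replicate (mm c ζ m b) (mb c ζ m b) := List.mem_of_getLast? hx
        rw [(List.mem_replicate.1 h1).2]
        simp [mb, hb]
      · right
        have hba : b ≠ a := by rintro rfl; exact hb hca
        cases w with
        | nil => simp at hy
        | cons b' w =>
          have hb' : b' = a := by
            rcases hw b b' ⟨[], w, by simp⟩ with h1 | h1
            · exact absurd h1 hba
            · exact h1
          subst hb'
          have h1 : mm c ζ m b' = m b' := by simp [mm, hca]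
          have h2 : mb c ζ m b' = (c, 1) := by simp [mb, hca]
          obtain ⟨k, hk⟩ := Nat.exists_eq_add_of_le hma
          rw [List.flatMap_cons, h1, h2, hk, Nat.add_comm, List.replicate_succ] at hy
          simp at hy
          exact hy.symm

theorem goodE {L : List A → Prop} {c : B} {ζ : A → B} {m : A → ℕ} {a : A} (hca : ζ a = c)
    (hL : Epi L) (hma : 1 ≤ m a) (h0 : ∀ b, m b = 0 → ζ b = c)
    (hsep : ∀ b b', L [b, b'] → b = a ∨ b' = a)
    (y : List (B × ℕ)) (hy : LX L (mb c ζ m) (mm c ζ m) y) : GoodC c y := by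
  obtain ⟨w, hw, hyw⟩ := hy
  refine ⟨fun p hp => ?_, fun p q hpq => ?_⟩
  · obtain ⟨b, -, hb⟩ := List.mem_flatMap.1 (hyw.subset hp)
    have hb' := (List.mem_replicate.1 hb).2
    by_cases hbc : ζ b = c
    · rw [hb']
      simp [mb, hbc]
    · have h1 : mb c ζ m b = (ζ b, m b) := by simp [mb, hbc]
      rw [hb', h1]
      refine ⟨?_, fun h => absurd h hbc⟩
      show 1 ≤ m b
      by_contra h2
      exact hbc (h0 b (by omega))
  · have h1 := chainE (c := c) (ζ := ζ) (m := m) hca hma w
      fun b b' hb => hsep b b' (hL.fact hw hb)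
    obtain ⟨s, t, hst⟩ := hpq.trans hyw
    rw [← hst] at h1
    have h2 := (List.isChain_append.1 (List.isChain_append.1 h1).1).2.1
    exact (List.isChain_pair (R := fun p q : B × ℕ => p = (c, 1) ∨ q = (c, 1))).1 h2

/-- The case where the separating letter is not erased, and the erased letters are sent to the
letter of the separating letter. -/
theorem inv_sep {L : List A → Prop} (hL : Epi L) (ζ : A → B) (m : A → ℕ) {a : A} (ha : L [a])
    (hsep : ∀ b b', L [b, b'] → b = a ∨ b' = a) (hma : 1 ≤ m a)
    (h0 : ∀ b, m b = 0 → ζ b = ζ a) (x : List B) : Inv' (LX L ζ m) x := by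
  classical
  have hβa : mb (ζ a) ζ m a = (ζ a, 1) := by simp [mb]
  have hmma : mm (ζ a) ζ m a = m a := by simp [mm]
  have hA : ∀ b, mb (ζ a) ζ m b ≠ (ζ a, 1) → mm (ζ a) ζ m b = 1 := by
    intro b hb
    unfold mb at hb
    unfold mm
    split_ifs with h2
    · rw [if_pos h2] at hb
      exact absurd rfl hb
    · rfl
  have h1 : ∀ z : List (B × ℕ), Inv (LX L (mb (ζ a) ζ m) (mm (ζ a) ζ m)) z := by
    intro z
    have h2 := inv_psi_iter (K := LX (fun w => L (psi a w ++ [a])) (mb (ζ a) ζ m)
      (fun b => if b = a then mm (ζ a) ζ m a else if mb (ζ a) ζ m b = mb (ζ a) ζ m a then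
        mm (ζ a) ζ m a + mm (ζ a) ζ m b else mm (ζ a) ζ m b))
      (fun h1 h2 => LX_sub h1 h2) (c := mb (ζ a) ζ m a) (n := z.length + 1)
      (fun x hx => inv_main (z.length + 1) _ (epi_derived hL ha hsep) (mb (ζ a) ζ m) _ (by
        intro b
        rw [hmma, hβa]
        split_ifs with h3 h4
        · exact hma
        · omega
        · exact le_of_eq (hA b h4).symm) (ζ a, 1) (by
        intro b hb
        have hba : b ≠ a := by rintro rfl; exact hb hβa
        rw [if_neg hba, hβa, if_neg hb]
        exact hA b hb) x hx) (mm (ζ a) ζ m a)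
    refine (h2.2 z (by omega)).anti ?_
    intro y hy
    convert LX_psi hL ha hsep (by rw [hβa]; exact hA) hy
  have h2 := inv_expC (c := ζ a) (K := LX L (mb (ζ a) ζ m) (mm (ζ a) ζ m))
    (fun h1 h2 => LX_sub h1 h2) (goodE rfl hL hma h0 hsep) h1 x
  have h3 : ∀ y, LX L ζ m y → ExpCl (LX L (mb (ζ a) ζ m) (mm (ζ a) ζ m)) y := by
    rintro y ⟨w, hw, hy⟩
    refine ⟨_, ⟨w, hw, List.infix_rfl⟩, ?_⟩
    rw [exp_marked]
    exact hy
  refine ⟨fun hx => ?_, fun hx => ?_⟩
  · obtain ⟨s, hs⟩ := h2.1 hx
    exact ⟨s, fun p q hpq => hs p q (h3 _ hpq)⟩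
  · obtain ⟨s, t, hs⟩ := h2.2 hx
    exact ⟨s, t, fun p q hpq => hs p q (h3 _ hpq)⟩

/-- The distance between two occurrences of a letter decreases in the derived language. -/
theorem shrink {L : List A → Prop} (hL : Epi L) {a b : A} (ha : L [a])
    (hsep : ∀ b b', L [b, b'] → b = a ∨ b' = a) (hba : b ≠ a) {z : List A}
    (hz : L (b :: (z ++ [b]))) :
    ∃ z', L (psi a (b :: (z' ++ [b])) ++ [a]) ∧ z'.length < z.length := by
  obtain ⟨x, hx, S, T, hST⟩ := derived_cover hL ha hsep hz
  cases z with
  | nil =>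
    exfalso
    rcases hsep b b hz with h | h <;> exact hba h
  | cons e z1 =>
    have he : e = a := by
      rcases hsep b e (hL.fact hz ⟨[], z1 ++ [b], by simp⟩) with h | h
      · exact absurd h hba
      · exact h
    subst he
    have h1 : psi e x ++ [e] = (S ++ [b]) ++ e :: (z1 ++ [b] ++ T) := by
      rw [← hST]; simp
    obtain ⟨y₁, y₂, h2, h3, h4⟩ := psi_cut h1
    have lastb : ∀ {y s : List A}, psi e y = s ++ [b] → ∃ y', y = y' ++ [b] := by
      intro y s h5
      rcases List.eq_nil_or_concat y with h6 | ⟨y', d, h6⟩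
      · rw [h6, psi_nil] at h5
        simp at h5
      · rw [List.concat_eq_append] at h6
        obtain ⟨t, ht⟩ := psi_last e y' d
        rw [h6, ht] at h5
        have h7 := List.append_inj' h5 rfl
        refine ⟨y', ?_⟩
        rw [h6]
        have h8 := h7.2
        simp only [List.cons.injEq, and_true] at h8
        rw [h8]
    obtain ⟨y₁', hy₁'⟩ := lastb h3
    cases T with
    | nil =>
      exfalso
      have h5 : psi e y₂ ++ [e] = (e :: z1) ++ [b] := by rw [h4]; simp
      have h6 := (List.append_inj' h5 rfl).2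
      simp only [List.cons.injEq, and_true] at h6
      exact hba h6.symm
    | cons f T' =>
      have hf : f = e := by
        have h5 : [b, f] <:+: psi e x ++ [e] := by
          rw [← hST]
          exact ⟨S ++ (b :: e :: z1), T', by simp⟩
        rcases hsep b f (hL.fact hx h5) with h | h
        · exact absurd h hba
        · exact h
      subst hf
      have h5 : psi f y₂ ++ [f] = (f :: (z1 ++ [b])) ++ f :: T' := by rw [h4]; simp
      obtain ⟨y₃, y₄, h6, h7, -⟩ := psi_cut h5
      obtain ⟨y₃', hy₃'⟩ := lastb (y := y₃) (s := f :: z1) (by rw [h7]; simp)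
      refine ⟨y₃', ?_, ?_⟩
      · have h8 := (epi_derived hL ha hsep).fact (v := b :: (y₃' ++ [b])) (w := x) hx
          ⟨y₁', y₄, by rw [h2, h6, hy₁', hy₃']; simp⟩
        exact h8
      · rw [hy₃', psi_append, psi_cons_ne hba, psi_nil] at h7
        have h8 := congrArg List.length h7
        simp only [List.length_append, List.length_cons, List.length_nil] at h8
        have h9 := psi_length f y₃'
        simp only [List.length_cons]
        omega

theorem pw_psi {ζ : A → B} {m : A → ℕ} {a : A} (hma : m a = 0) (x : List A) :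
    ((psi a x ++ [a]).flatMap fun b => List.replicate (m b) (ζ b)) =
      x.flatMap fun b => List.replicate (m b) (ζ b) := by
  induction x with
  | nil => simp [psi_nil, hma]
  | cons b x ih =>
    by_cases hb : b = a
    · subst hb
      rw [psi_cons_self, List.cons_append, List.flatMap_cons, List.flatMap_cons, ih]
    · rw [psi_cons_ne hb, List.cons_append, List.cons_append, List.flatMap_cons,
        List.flatMap_cons, List.flatMap_cons, ih, hma]
      simp

theorem inv_all (n : ℕ) : ∀ (L : List A → Prop), Epi L → ∀ (ζ : A → B) (m : A → ℕ),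
    (∃ b z, 1 ≤ m b ∧ L (b :: (z ++ [b])) ∧ z.length < n) → ∀ x : List B,
      Inv' (LX L ζ m) x := by
  classical
  induction n with
  | zero =>
    rintro L hL ζ m ⟨b, z, -, -, hz⟩
    omega
  | succ n ih =>
    rintro L hL ζ m ⟨b, z, hb, hz, hzn⟩ x
    obtain ⟨a, ha, hsep⟩ := exists_sep hL
    by_cases hma : 1 ≤ m a
    · have h1 : ∀ w : List A, (w.flatMap fun b => List.replicate (m b) (ζ b)) =
          w.flatMap fun b => List.replicate (m b) (if m b = 0 then ζ a else ζ b) := by
        intro w
        congr 1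
        funext d
        by_cases hd : m d = 0
        · simp [hd]
        · simp [hd]
      have h2 := inv_sep hL (fun b => if m b = 0 then ζ a else ζ b) m ha hsep hma (by
        intro d hd
        simp [hd]) x
      have h3 : LX L ζ m = LX L (fun b => if m b = 0 then ζ a else ζ b) m := by
        funext y
        unfold LX
        simp only [h1]
      rw [h3]
      exact h2
    · have hma0 : m a = 0 := by omega
      have hba : b ≠ a := by rintro rfl; omega
      obtain ⟨z', hz', hlt⟩ := shrink hL ha hsep hba hz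
      have h1 := ih _ (epi_derived hL ha hsep) ζ m ⟨b, z', hb, hz', by omega⟩ x
      have h3 : ∀ y, LX L ζ m y → LX (fun w => L (psi a w ++ [a])) ζ m y := by
        rintro y ⟨w, hw, hy⟩
        obtain ⟨x', hx', s, t, hst⟩ := derived_cover hL ha hsep hw
        refine ⟨x', hx', ?_⟩
        rw [← pw_psi hma0 x', ← hst]
        refine hy.trans ⟨s.flatMap fun b => List.replicate (m b) (ζ b),
          t.flatMap fun b => List.replicate (m b) (ζ b), by simp⟩
      refine ⟨fun hx => ?_, fun hx => ?_⟩
      · obtain ⟨s, hs⟩ := h1.1 hx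
        exact ⟨s, fun p q hpq => hs p q (h3 _ hpq)⟩
      · obtain ⟨s, t, hs⟩ := h1.2 hx
        exact ⟨s, t, fun p q hpq => hs p q (h3 _ hpq)⟩

/-! ### The image of the infinite word -/

theorem long_image {u : ℕ → A} (hu : Episturmian u) (ζ : A → B) (m : A → ℕ)
    (hm : ∃ i, 1 ≤ m (u i)) (N : ℕ) : ∃ n, N ≤ ((fac u 0 n).flatMap (pw ζ m)).length := by
  obtain ⟨i, hi⟩ := hm
  induction N with
  | zero => exact ⟨0, Nat.zero_le _⟩
  | succ N ih =>
    obtain ⟨n, hn⟩ := ih
    obtain ⟨k, hk, hk2⟩ := lang_late hu.1 (w := [u i]) ⟨i, by simp [fac]⟩ n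
    have hk3 : u k = u i := by
      simp [fac] at hk2
      exact hk2.symm
    refine ⟨k + 1, ?_⟩
    obtain ⟨t, ht⟩ := fac_prefix u 0 hk
    rw [fac_succ, ← ht, List.flatMap_append, List.flatMap_append, Nat.zero_add, hk3]
    simp only [List.length_append, List.flatMap_cons, List.flatMap_nil, List.append_nil, pw,
      List.length_replicate] at hn ⊢
    omega

theorem image_prefix (ζ : A → B) (m : A → ℕ) (u : ℕ → A) {n k : ℕ} (hnk : n ≤ k) :
    (fac u 0 n).flatMap (pw ζ m) <+: (fac u 0 k).flatMap (pw ζ m) := by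
  obtain ⟨t, ht⟩ := fac_prefix u 0 hnk
  exact ⟨t.flatMap (pw ζ m), by rw [← ht, List.flatMap_append]⟩

theorem exists_image' {u : ℕ → A} (hu : Episturmian u) (ζ : A → B) (m : A → ℕ)
    (hm : ∃ i, 1 ≤ m (u i)) : ∃ v, IsImage ζ m u v := by
  have h := fun i : ℕ => long_image hu ζ m hm (i + 1)
  choose N hN using h
  refine ⟨fun i => ((fac u 0 (N i)).flatMap (pw ζ m))[i]'(lt_of_lt_of_le (Nat.lt_succ_self i)
    (hN i)), fun n => ⟨((fac u 0 n).flatMap (pw ζ m)).length, ?_⟩⟩
  apply List.ext_getElem
  · rw [fac_length]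
  · intro i h1 h2
    rw [fac_getElem]
    simp only [Nat.zero_add]
    rcases le_total n (N i) with h | h
    · exact (image_prefix ζ m u h).getElem h1
    · exact ((image_prefix ζ m u h).getElem _).symm

theorem rich_image' {u : ℕ → A} (hu : Episturmian u) (ζ : A → B) (m : A → ℕ)
    (hm : ∃ i, 1 ≤ m (u i)) (v : ℕ → B) (hv : IsImage ζ m u v) : Rich v := by
  have hL := epi_lang hu
  have hcov : ∀ w, Lang v w → ∃ n, w <:+: (fac u 0 n).flatMap (pw ζ m) := by
    rintro w ⟨i, hi⟩
    obtain ⟨n, hn⟩ := long_image hu ζ m hm (i + w.length)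
    obtain ⟨k, hk⟩ := hv n
    refine ⟨n, ?_⟩
    rw [hk, fac_length] at hn
    rw [hk, hi]
    exact fac_infix v (Nat.zero_le i) (by omega)
  have hrev : ∀ w, Lang v w → Lang v w.reverse := by
    intro w hw
    obtain ⟨n, hn⟩ := hcov w hw
    obtain ⟨j, hj⟩ := hu.1 _ (lang_fac u 0 n)
    rw [List.length_reverse, fac_length] at hj
    have h1 : w.reverse <:+: (fac u j n).flatMap (pw ζ m) := by
      rw [← hj, ← pw_reverse, List.reverse_infix]
      exact hn
    obtain ⟨s, t, hst⟩ := fac_infix u (Nat.zero_le j) (show j + n ≤ 0 + (j + n) by omega)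
    obtain ⟨k, hk⟩ := hv (j + n)
    have h2 : w.reverse <:+: fac v 0 k := by
      rw [← hk, ← hst]
      exact h1.trans ⟨s.flatMap (pw ζ m), t.flatMap (pw ζ m), by simp⟩
    exact (lang_fac v 0 k).sub h2
  have hsub : ∀ w, Lang v w → LX (Lang u) ζ m w := by
    intro w hw
    obtain ⟨n, hn⟩ := hcov w hw
    exact ⟨fac u 0 n, lang_fac _ _ _, hn⟩
  obtain ⟨i, hi⟩ := hm
  have hui : Lang u [u i] := ⟨i, by simp [fac]⟩
  obtain ⟨z, hz⟩ := hL.irr hui hui
  have hF : ∀ w, FF v w := fun w => ff_of_inv' (inv_all (z.length + 1) (Lang u) hL ζ m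
    ⟨u i, z, hi, by simpa using hz, Nat.lt_succ_self _⟩ w) hsub
  have hP : ∀ n, Pot v n := by
    intro n
    induction n with
    | zero => exact pot_zero _
    | succ n ih => exact pot_succ hrev ih (fun w _ => hF w)
  intro w hw
  obtain ⟨i, hi⟩ := hw
  unfold RichWord
  have := rich_of_ret (ret_of_pot hP) i w.length
  rwa [← hi] at this

end Pool.Agent.KS7_39.D56
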