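import Pool.Graph.R_pool_sql_team_seeded_843ab51a.Results.MP_8d80dd_co.ProjectionRich

/-!
# Images of episturmian words under `a ↦ ζ(a)^{m(a)}` are rich

Let `u` be an episturmian word over `A`, `ζ : A → B` any map and `m : A → ℕ` any function with
`m a ≥ 1`.  The image of `u` under the morphism `a ↦ ζ(a)^{m(a)}` is rich.  The case `m = 1` is
the statement on the letter-to-letter projections.
-/

set_option autoImplicit false

namespace Pool.Agent.KS7_39.D56

open List
open Pool.Agent.Results.MP_8d80dd_co.ProjectionRich

/-- The image of the letter `a` under the morphism `a ↦ ζ(a)^{m(a)}`. -/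
def pw {A B : Type*} (ζ : A → B) (m : A → ℕ) (a : A) : List B := List.replicate (m a) (ζ a)

/-- `v` is the image of the infinite word `u` under the morphism `a ↦ ζ(a)^{m(a)}`: the images of
all prefixes of `u` are prefixes of `v`. -/
def IsImage {A B : Type*} (ζ : A → B) (m : A → ℕ) (u : ℕ → A) (v : ℕ → B) : Prop :=
  ∀ n, ∃ k, (fac u 0 n).flatMap (pw ζ m) = fac v 0 k

variable {A B : Type*}

/-! ### The relaxed invariant -/

/-- The set of two-sided extensions of `x` in `K` is contained in a cross (if `x` is not a
palindrome), respectively in a symmetric cross plus the diagonal (if it is). -/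
def Inv' (K : List B → Prop) (x : List B) : Prop :=
  (x.reverse = x → ∃ s, ∀ p q, K (p :: (x ++ [q])) → p = s ∨ q = s ∨ p = q) ∧
  (x.reverse ≠ x → ∃ s t, ∀ p q, K (p :: (x ++ [q])) → p = s ∨ q = t)

theorem ff_of_inv' {u : ℕ → B} {w : List B} {K : List B → Prop} (h : Inv' K w)
    (hK : ∀ y, Lang u y → K y) : FF u w := by
  classical
  intro θ hθ
  by_cases hw : w.reverse = w
  · obtain ⟨s, hst⟩ := h.1 hw
    have hanti := hθ hw
    have hdiag : ∀ a, θ a a = 0 := by
      intro a
      have := hanti a a
      linarith
    refine ⟨θ s, θ s, fun a b hab => ?_⟩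
    rcases hst a b (hK _ hab) with h1 | h1 | h1
    · rw [h1, hdiag, sub_zero]
    · rw [h1, hdiag, zero_sub, hanti]
    · rw [h1, hdiag, sub_self]
  · obtain ⟨s, t, hst⟩ := h.2 hw
    refine ⟨fun a => if a = s then 0 else θ s t - θ a t, θ s, fun a b hab => ?_⟩
    rcases hst a b (hK _ hab) with h1 | h1
    · rw [h1]; beta_reduce; rw [if_pos rfl, sub_zero]
    · rw [h1]
      by_cases ha : a = s
      · rw [ha]; beta_reduce; rw [if_pos rfl, sub_zero]
      · beta_reduce; rw [if_neg ha]; ring

/-! ### Words with multiplicities, every second letter being `c` -/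

/-- Words with multiplicities in which `c` has multiplicity one and every second letter is `c`. -/
def GoodC (c : B) (y : List (B × ℕ)) : Prop :=
  (∀ p ∈ y, 1 ≤ p.2 ∧ (p.1 = c → p.2 = 1)) ∧
    ∀ p q, [p, q] <:+: y → p = (c, 1) ∨ q = (c, 1)

theorem GoodC.sub {c : B} {y z : List (B × ℕ)} (h : GoodC c y) (hz : z <:+: y) : GoodC c z :=
  ⟨fun p hp => h.1 p (hz.subset hp), fun p q hpq => h.2 p q (hpq.trans hz)⟩

theorem GoodC.rev {c : B} {y : List (B × ℕ)} (h : GoodC c y) : GoodC c y.reverse := by
  refine ⟨fun p hp => h.1 p (by simpa using hp), fun p q hpq => ?_⟩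
  have : [q, p] <:+: y := by
    rw [← List.reverse_infix] at hpq
    simpa using hpq
  exact (h.2 q p this).symm

theorem exp_lengthC {c : B} {y : List (B × ℕ)} (h : GoodC c y) : y.length ≤ (Exp y).length := by
  induction y with
  | nil => simp
  | cons p y ih =>
    have h1 := ih (h.sub ⟨[p], [], by simp⟩)
    have h2 := (h.1 p (by simp)).1
    rw [exp_cons]
    simp only [List.length_cons, List.length_append, List.length_replicate]
    omega

/-- Cut an expanded word at the letter `c`. -/
theorem exp_cutC {c : B} {y : List (B × ℕ)} (hg : GoodC c y) {S T : List B}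
    (h : Exp y = S ++ c :: T) :
    ∃ y₁ y₂, y = y₁ ++ (c, 1) :: y₂ ∧ Exp y₁ = S ∧ Exp y₂ = T := by
  induction y generalizing S with
  | nil =>
    exfalso
    have := congrArg List.length h
    simp [exp_nil] at this
  | cons p y ih =>
    have hg' : GoodC c y := hg.sub ⟨[p], [], by simp⟩
    have hp := hg.1 p (by simp)
    rw [exp_cons] at h
    rcases List.append_eq_append_iff.1 h with ⟨a', h1, h2⟩ | ⟨c', h1, h2⟩
    · obtain ⟨y₁, y₂, h3, h4, h5⟩ := ih hg' h2
      exact ⟨p :: y₁, y₂, by rw [h3]; rfl, by rw [exp_cons, h4, h1], h5⟩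
    · cases c' with
      | nil =>
        rw [List.append_nil] at h1
        rw [List.nil_append] at h2
        obtain ⟨y₁, y₂, h3, h4, h5⟩ := ih (S := []) hg' (by rw [← h2]; rfl)
        refine ⟨p :: y₁, y₂, by rw [h3]; rfl, by rw [exp_cons, h4, ← h1]; simp, h5⟩
      | cons d c' =>
        rw [List.cons_append, List.cons.injEq] at h2
        obtain ⟨hcd, h2⟩ := h2
        have hb1 : c = p.1 := by
          have : d ∈ List.replicate p.2 p.1 := by rw [h1]; simp
          rw [hcd]
          exact (List.mem_replicate.1 this).2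
        have hp1 : p.2 = 1 := hp.2 hb1.symm
        have hpe : p = (c, 1) := Prod.ext hb1.symm hp1
        rw [hp1] at h1
        have hl := congrArg List.length h1
        simp only [List.length_replicate, List.length_append, List.length_cons] at hl
        have hS : S = [] := List.length_eq_zero_iff.1 (by omega)
        have hc : c' = [] := List.length_eq_zero_iff.1 (by omega)
        subst hS hc
        exact ⟨[], y, by rw [hpe]; rfl, rfl, by rw [h2]; rfl⟩

/-- The relation between a letter `α`, the `c`-free word `u` between it and a block boundary, and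
the letter with multiplicity at this boundary. -/
def RelU (c : B) (u : List B) (α : B) (p : B × ℕ) : Prop :=
  (u = [] ∧ α = p.1) ∨
    (u ≠ [] ∧ p.1 ≠ c ∧ u = List.replicate u.length p.1 ∧
      ((p.2 = u.length ∧ α = c) ∨ (u.length < p.2 ∧ α = p.1)))

theorem rightC {c : B} {y : List (B × ℕ)} (hg : GoodC c y) {u T : List B} {β : B} (hu : c ∉ u)
    (h : Exp y = u ++ β :: T) : ∃ q y', y = q :: y' ∧ RelU c u β q := by
  cases y with
  | nil =>
    exfalso
    have := congrArg List.length h
    simp [exp_nil] at this
  | cons q y =>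
    refine ⟨q, y, rfl, ?_⟩
    have hq := hg.1 q (by simp)
    rw [exp_cons] at h
    -- the case where `u` is the whole block
    have whole : u = List.replicate q.2 q.1 → Exp y = β :: T → RelU c u β q := by
      intro h1 h2
      have hne : u ≠ [] := by
        intro h0
        rw [h0] at h1
        have := congrArg List.length h1
        simp at this
        omega
      have hl : u.length = q.2 := by rw [h1]; simp
      have hqc : q.1 ≠ c := by
        rintro rfl
        apply hu
        rw [h1]
        exact List.mem_replicate.2 ⟨by omega, rfl⟩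
      refine Or.inr ⟨hne, hqc, by rw [hl]; exact h1, Or.inl ⟨hl.symm, ?_⟩⟩
      cases y with
      | nil => simp [exp_nil] at h2
      | cons r y' =>
        rcases hg.2 q r ⟨[], y', by simp⟩ with h3 | h3
        · exact absurd (by rw [h3]) hqc
        · subst h3
          rw [exp_cons] at h2
          simp only [List.replicate_one, List.cons_append, List.cons.injEq] at h2
          exact h2.1.symm
    rcases List.append_eq_append_iff.1 h with ⟨a', h1, h2⟩ | ⟨c', h1, h2⟩
    · -- `u = block ++ a'`
      cases a' with
      | nil => exact whole (by rw [h1]; simp) (by rw [h2]; rfl)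
      | cons e a' =>
        exfalso
        cases y with
        | nil => simp [exp_nil] at h2
        | cons r y' =>
          have hqc : q.1 ≠ c := by
            rintro rfl
            apply hu
            rw [h1]
            exact List.mem_append_left _ (List.mem_replicate.2 ⟨by omega, rfl⟩)
          rcases hg.2 q r ⟨[], y', by simp⟩ with h3 | h3
          · exact absurd (by rw [h3]) hqc
          · subst h3
            rw [exp_cons] at h2
            simp only [List.replicate_one, List.cons_append, List.cons.injEq] at h2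
            apply hu
            rw [h1, ← h2.1]
            simp
    · -- `block = u ++ c'`
      cases c' with
      | nil => exact whole (by rw [h1]; simp) (by rw [h2]; rfl)
      | cons d c' =>
        rw [List.cons_append, List.cons.injEq] at h2
        obtain ⟨rfl, h2⟩ := h2
        have hβ : β = q.1 := by
          have : β ∈ List.replicate q.2 q.1 := by rw [h1]; simp
          exact (List.mem_replicate.1 this).2
        have hl := congrArg List.length h1
        simp only [List.length_replicate, List.length_append, List.length_cons] at hl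
        by_cases hne : u = []
        · exact Or.inl ⟨hne, hβ⟩
        · have hall : ∀ b ∈ u, b = q.1 := by
            intro b hb
            have : b ∈ List.replicate q.2 q.1 := by rw [h1]; simp [hb]
            exact (List.mem_replicate.1 this).2
          have hqc : q.1 ≠ c := by
            rintro rfl
            obtain ⟨b, u', rfl⟩ := List.exists_cons_of_ne_nil hne
            apply hu
            rw [← hall b (by simp)]
            simp
          refine Or.inr ⟨hne, hqc, ?_, Or.inr ⟨by omega, hβ⟩⟩
          exact List.eq_replicate_iff.2 ⟨rfl, hall⟩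

theorem leftC {c : B} {y : List (B × ℕ)} (hg : GoodC c y) {S u : List B} {α : B} (hu : c ∉ u)
    (h : Exp y = S ++ α :: u) : ∃ p y', y = y' ++ [p] ∧ RelU c u α p := by
  obtain ⟨q, y', h1, h2⟩ := rightC hg.rev (T := S.reverse) (u := u.reverse) (β := α)
    (by simpa using hu) (by rw [exp_reverse, h]; simp)
  refine ⟨q, y'.reverse, ?_, ?_⟩
  · have := congrArg List.reverse h1
    simpa using this
  · rcases h2 with ⟨h3, h4⟩ | ⟨h3, h4, h5, h6⟩
    · exact Or.inl ⟨by simpa using h3, h4⟩
    · refine Or.inr ⟨by simpa using h3, h4, ?_, by simpa using h6⟩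
      have := congrArg List.reverse h5
      simpa using this

/-- Unique decoding of good words. -/
theorem exp_injC {c : B} {y z : List (B × ℕ)} (hy : GoodC c y)
    (hz : GoodC c z) (h : Exp y = Exp z) : y = z := by
  induction y generalizing z with
  | nil =>
    have := exp_lengthC hz
    rw [← h] at this
    simp only [exp_nil, List.length_nil, Nat.le_zero_eq] at this
    exact (List.length_eq_zero_iff.1 this).symm
  | cons p y ih =>
    cases z with
    | nil =>
      have := exp_lengthC hy
      rw [h] at this
      simp [exp_nil] at this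
    | cons q z =>
      have hp := hy.1 p (by simp)
      have hq := hz.1 q (by simp)
      have hpq : p.1 = q.1 := by
        obtain ⟨m, hm⟩ := Nat.exists_eq_add_of_le hp.1
        obtain ⟨k, hk⟩ := Nat.exists_eq_add_of_le hq.1
        rw [exp_cons, exp_cons, hm, hk, Nat.add_comm 1 m, Nat.add_comm 1 k, List.replicate_succ,
          List.replicate_succ] at h
        simp only [List.cons_append, List.cons.injEq] at h
        exact h.1
      have hy' : GoodC c y := hy.sub ⟨[p], [], by simp⟩
      have hz' : GoodC c z := hz.sub ⟨[q], [], by simp⟩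
      have key : ∀ {p q : B × ℕ} {y z : List (B × ℕ)}, GoodC c (p :: y) → p.1 ≠ c →
          p.1 = q.1 → p.2 < q.2 → Exp (p :: y) = Exp (q :: z) → False := by
        intro p q y z hg h1 h2 h3 h4
        obtain ⟨k, hk⟩ := Nat.exists_eq_add_of_le h3.le
        rw [exp_cons, exp_cons, h2, hk, List.replicate_add, List.append_assoc] at h4
        have h5 := List.append_cancel_left h4
        have hk0 : 1 ≤ k := by omega
        obtain ⟨k', hk'⟩ := Nat.exists_eq_add_of_le hk0
        rw [hk', Nat.add_comm 1 k', List.replicate_succ] at h5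
        cases y with
        | nil => simp [exp_nil] at h5
        | cons r y' =>
          rcases hg.2 p r ⟨[], y', by simp⟩ with h6 | h6
          · apply h1; rw [h6]
          · subst h6
            rw [exp_cons] at h5
            simp only [List.replicate_one, List.cons_append, List.cons.injEq] at h5
            exact h1 (by rw [h2]; exact h5.1.symm)
      have hpq2 : p.2 = q.2 := by
        by_cases ht : p.1 = c
        · rw [hp.2 ht, hq.2 (hpq ▸ ht)]
        · rcases lt_trichotomy p.2 q.2 with h1 | h1 | h1
          · exact (key hy ht hpq h1 h).elim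
          · exact h1
          · exact (key hz (hpq ▸ ht) hpq.symm h1 h.symm).elim
      have hpe : p = q := Prod.ext hpq hpq2
      subst hpe
      rw [exp_cons, exp_cons] at h
      rw [ih hy' hz' (List.append_cancel_left h)]

/-- A `c`-free factor of an expanded good word is a power of a letter. -/
theorem unaryC {c : B} {y : List (B × ℕ)} (hg : GoodC c y) {S u T : List B} (hu : c ∉ u)
    (h : Exp y = S ++ (u ++ T)) : ∃ t, ∀ b ∈ u, b = t := by
  induction y generalizing S with
  | nil =>
    have h0 := congrArg List.length h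
    simp only [exp_nil, List.length_nil, List.length_append] at h0
    have h1 : u = [] := List.eq_nil_of_length_eq_zero (by omega)
    exact ⟨c, by rw [h1]; simp⟩
  | cons p y ih =>
    have hg' : GoodC c y := hg.sub ⟨[p], [], by simp⟩
    rw [exp_cons] at h
    rcases List.append_eq_append_iff.1 h with ⟨a', h1, h2⟩ | ⟨c', h1, h2⟩
    · exact ih hg' h2
    · by_cases hc' : c' = []
      · subst hc'
        exact ih (S := []) hg' (by rw [List.nil_append] at h2 ⊢; exact h2.symm)
      rcases List.append_eq_append_iff.1 h2 with ⟨a'', h3, h4⟩ | ⟨d', h3, h4⟩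
      · -- `c' = u ++ a''`
        refine ⟨p.1, fun b hb => ?_⟩
        have : b ∈ List.replicate p.2 p.1 := by rw [h1, h3]; simp [hb]
        exact (List.mem_replicate.1 this).2
      · -- `u = c' ++ d'`
        have hmem : ∀ b ∈ c', b = p.1 := by
          intro b hb
          have : b ∈ List.replicate p.2 p.1 := by rw [h1]; simp [hb]
          exact (List.mem_replicate.1 this).2
        cases d' with
        | nil =>
          refine ⟨p.1, fun b hb => ?_⟩
          rw [h3, List.append_nil] at hb
          exact hmem b hb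
        | cons e d' =>
          exfalso
          obtain ⟨f, c'', rfl⟩ := List.exists_cons_of_ne_nil hc'
          have hpc : p.1 ≠ c := by
            rintro rfl
            apply hu
            rw [h3, ← hmem f (by simp)]
            simp
          cases y with
          | nil => simp [exp_nil] at h4
          | cons r y' =>
            rcases hg.2 p r ⟨[], y', by simp⟩ with h5 | h5
            · exact hpc (by rw [h5])
            · subst h5
              rw [exp_cons] at h4
              simp only [List.replicate_one, List.cons_append, List.cons.injEq] at h4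
              apply hu
              rw [h3, ← h4.1]
              simp

/-! ### The expanded language -/

theorem exp_cut_bothC {c : B} {y : List (B × ℕ)} (hg : GoodC c y) {u v W : List B} {α β : B}
    (hu : c ∉ u) (hv : c ∉ v) (hW1 : ∃ W', W = c :: W') (hW2 : ∃ W', W = W' ++ [c])
    (h : α :: ((u ++ W ++ v) ++ [β]) <:+: Exp y) :
    ∃ p q Y, p :: (Y ++ [q]) <:+: y ∧ Exp Y = W ∧ RelU c u α p ∧ RelU c v β q := by
  obtain ⟨S, T, hST⟩ := h
  obtain ⟨W', hW'⟩ := hW1
  obtain ⟨W'', hW''⟩ := hW2
  have h1 : Exp y = (S ++ α :: u) ++ c :: (W' ++ v ++ β :: T) := by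
    rw [← hST, hW']; simp
  obtain ⟨y₁, y₂, h2, h3, h4⟩ := exp_cutC hg h1
  have h5 : Exp ((c, 1) :: y₂) = W'' ++ c :: (v ++ β :: T) := by
    rw [exp_cons, h4]
    have : W'' ++ c :: (v ++ β :: T) = (W'' ++ [c]) ++ (v ++ β :: T) := by simp
    rw [this, ← hW'', hW']; simp
  have hg2 : GoodC c ((c, 1) :: y₂) := hg.sub ⟨y₁, [], by rw [h2]; simp⟩
  obtain ⟨y₃, y₄, h6, h7, h8⟩ := exp_cutC hg2 h5
  have hg1 : GoodC c y₁ := hg.sub ⟨[], (c, 1) :: y₂, by rw [h2]; simp⟩
  have hg4 : GoodC c y₄ := hg2.sub ⟨y₃ ++ [(c, 1)], [], by rw [h6]; simp⟩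
  obtain ⟨p, y₁', h9, h10⟩ := leftC hg1 hu h3
  obtain ⟨q, y₄', h11, h12⟩ := rightC hg4 hv h8
  refine ⟨p, q, y₃ ++ [(c, 1)], ⟨y₁', y₄', ?_⟩, ?_, h10, h12⟩
  · rw [h2, h6, h9, h11]; simp
  · rw [exp_append, h7, exp_cons, exp_nil, hW'']; simp

/-- Decompose a word at its first and its last letter `c`. -/
theorem split_bothC {c : B} {x : List B} (hx : c ∈ x) :
    ∃ u v W, x = u ++ W ++ v ∧ c ∉ u ∧ c ∉ v ∧ (∃ W', W = c :: W') ∧ (∃ W', W = W' ++ [c]) := by
  obtain ⟨u, r, h1, hu⟩ := List.eq_append_cons_of_mem hx
  have hr : c ∈ (c :: r).reverse := by simp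
  obtain ⟨v, r', h2, hv⟩ := List.eq_append_cons_of_mem hr
  have h3 : c :: r = r'.reverse ++ [c] ++ v.reverse := by
    have := congrArg List.reverse h2
    simpa using this
  refine ⟨u, v.reverse, r'.reverse ++ [c], ?_, hu, by simpa using hv, ?_, r'.reverse, rfl⟩
  · rw [h1, h3]; simp
  · cases hr' : r'.reverse with
    | nil => exact ⟨[], rfl⟩
    | cons e r'' =>
      rw [hr'] at h3
      simp only [List.cons_append, List.cons.injEq] at h3
      exact ⟨r'' ++ [c], by rw [h3.1]; rfl⟩

open Classical in
/-- The letter read after the `c`-free word `u` from a block boundary. -/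
noncomputable def gg (c : B) (u : List B) (p : B × ℕ) : B :=
  if u = [] then p.1 else if p.2 = u.length then c else p.1

theorem RelU.eq {c : B} {u : List B} {α : B} {p : B × ℕ} (h : RelU c u α p) :
    α = gg c u p := by
  unfold gg
  rcases h with ⟨h1, h2⟩ | ⟨h1, -, -, ⟨h3, h4⟩ | ⟨h3, h4⟩⟩
  · rw [if_pos h1, h2]
  · rw [if_neg h1, if_pos h3, h4]
  · rw [if_neg h1, if_neg (by omega), h4]

theorem cross_le {c : B} {u v : List B} (huv : u ≠ v) (hl : u.length ≤ v.length)
    {E : B × ℕ → B × ℕ → Prop} {s' t' : B × ℕ}
    (hE : ∀ p q, E p q → p = s' ∨ q = s' ∨ (p = t' ∧ q = t')) :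
    ∃ s t, ∀ α β p q, RelU c u α p → RelU c v β q → E p q → α = s ∨ β = t := by
  have hvne : v ≠ [] := by
    intro h0
    apply huv
    rw [h0] at hl ⊢
    exact List.eq_nil_of_length_eq_zero (by simpa using hl)
  obtain ⟨t₂, v', hv'⟩ := List.exists_cons_of_ne_nil hvne
  have hq : ∀ {β q}, RelU c v β q → q.1 = t₂ ∧ v.length ≤ q.2 ∧
      v = List.replicate v.length t₂ := by
    intro β q h
    rcases h with ⟨h1, -⟩ | ⟨-, -, h2, h3⟩
    · exact absurd h1 hvne
    · have h4 : t₂ = q.1 := by
        have : t₂ ∈ List.replicate v.length q.1 := by rw [← h2, hv']; simp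
        exact (List.mem_replicate.1 this).2
      refine ⟨h4.symm, ?_, by rw [h4]; exact h2⟩
      rcases h3 with ⟨h3, -⟩ | ⟨h3, -⟩ <;> omega
  by_cases hu0 : u = []
  · have h0 : ∀ {α p}, RelU c u α p → α = p.1 := by
      intro α p h
      rcases h with ⟨-, h2⟩ | ⟨h1, -⟩
      · exact h2
      · exact absurd hu0 h1
    by_cases hs : s'.1 = t₂
    · refine ⟨t₂, gg c v s', fun α β p q hp hq' hpq => ?_⟩
      rcases hE p q hpq with h | h | ⟨h, h'⟩
      · left; rw [h0 hp, h, hs]
      · right; rw [hq'.eq, h]
      · left
        have := (hq hq').1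
        rw [h0 hp, h, ← h', this]
    · refine ⟨s'.1, gg c v t', fun α β p q hp hq' hpq => ?_⟩
      rcases hE p q hpq with h | h | ⟨h, h'⟩
      · left; rw [h0 hp, h]
      · exact absurd (h ▸ (hq hq').1) hs
      · right; rw [hq'.eq, h']
  · obtain ⟨t₁, u', hu'⟩ := List.exists_cons_of_ne_nil hu0
    have hp' : ∀ {α p}, RelU c u α p → p.1 = t₁ ∧ u = List.replicate u.length t₁ ∧
        ((p.2 = u.length ∧ α = c) ∨ (u.length < p.2 ∧ α = p.1)) := by
      intro α p h
      rcases h with ⟨h1, -⟩ | ⟨-, -, h2, h3⟩
      · exact absurd h1 hu0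
      · have h4 : t₁ = p.1 := by
          have : t₁ ∈ List.replicate u.length p.1 := by rw [← h2, hu']; simp
          exact (List.mem_replicate.1 this).2
        exact ⟨h4.symm, by rw [h4]; exact h2, h3⟩
    by_cases ht : t₁ = t₂
    · by_cases hlt : u.length < v.length
      · by_cases hs : s' = (t₁, u.length)
        · refine ⟨c, gg c v t', fun α β p q hp hq' hpq => ?_⟩
          rcases hE p q hpq with h | h | ⟨h, h'⟩
          · left
            have h2 := (hp' hp).2.2
            rw [h, hs] at h2
            rcases h2 with ⟨-, h3⟩ | ⟨h3, -⟩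
            · exact h3
            · exact absurd h3 (lt_irrefl _)
          · exfalso
            have h2 := (hq hq').2.1
            rw [h, hs] at h2
            simp only at h2
            omega
          · right; rw [hq'.eq, h']
        · refine ⟨t₁, gg c v s', fun α β p q hp hq' hpq => ?_⟩
          rcases hE p q hpq with h | h | ⟨h, h'⟩
          · left
            obtain ⟨h1, -, h2⟩ := hp' hp
            rcases h2 with ⟨h3, -⟩ | ⟨-, h3⟩
            · exact absurd (h ▸ Prod.ext h1 h3) hs
            · rw [h3, h1]
          · right; rw [hq'.eq, h]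
          · left
            obtain ⟨h1, -, h2⟩ := hp' hp
            have h4 := (hq hq').2.1
            rw [h', ← h] at h4
            rcases h2 with ⟨h3, -⟩ | ⟨-, h3⟩
            · omega
            · rw [h3, h1]
      · refine ⟨c, c, fun α β p q hp hq' hpq => ?_⟩
        exfalso
        apply huv
        rw [(hp' hp).2.1, (hq hq').2.2, ht, show u.length = v.length by omega]
    · by_cases hs : s'.1 = t₁
      · refine ⟨gg c u s', c, fun α β p q hp hq' hpq => ?_⟩
        rcases hE p q hpq with h | h | ⟨h, h'⟩
        · left; rw [hp.eq, h]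
        · exfalso
          have h1 := (hq hq').1
          rw [h] at h1
          exact ht (hs.symm.trans h1)
        · exfalso
          have h1 := (hq hq').1
          have h2 := (hp' hp).1
          rw [h'] at h1
          rw [h] at h2
          exact ht (h2.symm.trans h1)
      · refine ⟨c, gg c v s', fun α β p q hp hq' hpq => ?_⟩
        rcases hE p q hpq with h | h | ⟨h, h'⟩
        · exfalso
          have h2 := (hp' hp).1
          rw [h] at h2
          exact hs h2
        · right; rw [hq'.eq, h]
        · exfalso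
          have h1 := (hq hq').1
          have h2 := (hp' hp).1
          rw [h'] at h1
          rw [h] at h2
          exact ht (h2.symm.trans h1)

theorem cross_neC {c : B} {u v : List B} (huv : u ≠ v)
    {E : B × ℕ → B × ℕ → Prop} {s' t' : B × ℕ}
    (hE : ∀ p q, E p q → p = s' ∨ q = s' ∨ (p = t' ∧ q = t')) :
    ∃ s t, ∀ α β p q, RelU c u α p → RelU c v β q → E p q → α = s ∨ β = t := by
  rcases le_total u.length v.length with h | h
  · exact cross_le huv h hE
  · obtain ⟨s, t, hst⟩ := cross_le (c := c) huv.symm h (E := fun q p => E p q) (s' := s')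
      (t' := t') (fun q p hpq => by
        rcases hE p q hpq with h1 | h1 | ⟨h1, h2⟩
        · exact Or.inr (Or.inl h1)
        · exact Or.inl h1
        · exact Or.inr (Or.inr ⟨h2, h1⟩))
    exact ⟨t, s, fun α β p q hp hq hpq => (hst β α q p hq hp hpq).symm⟩

theorem first_c {c : B} : ∀ {u u' V V' : List B}, c ∉ u → c ∉ u' →
    u ++ c :: V = u' ++ c :: V' → u = u' ∧ V = V'
  | [], [], V, V', _, _, h => by
    simp only [List.nil_append, List.cons.injEq, true_and] at h
    exact ⟨rfl, h⟩
  | [], e :: u', V, V', _, hu', h => by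
    exfalso
    simp only [List.nil_append, List.cons_append, List.cons.injEq] at h
    apply hu'
    rw [h.1]; simp
  | e :: u, [], V, V', hu, _, h => by
    exfalso
    simp only [List.nil_append, List.cons_append, List.cons.injEq] at h
    apply hu
    rw [← h.1]; simp
  | e :: u, e' :: u', V, V', hu, hu', h => by
    simp only [List.cons_append, List.cons.injEq] at h
    have h1 := first_c (u := u) (u' := u') (by simp at hu; exact hu.2) (by simp at hu'; exact hu'.2)
      h.2
    exact ⟨by rw [h.1, h1.1], h1.2⟩

theorem relU_rev {c : B} {u : List B} {α : B} {p : B × ℕ} (h : RelU c u α p) :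
    u.reverse = u := by
  rcases h with ⟨h1, -⟩ | ⟨-, -, h2, -⟩
  · rw [h1]; rfl
  · rw [h2]; simp

theorem inv_expC {c : B} {K : List (B × ℕ) → Prop}
    (hK : ∀ {v w : List (B × ℕ)}, K w → v <:+: w → K v) (hg : ∀ y, K y → GoodC c y)
    (h : ∀ x : List (B × ℕ), Inv K x) (x : List B) : Inv' (ExpCl K) x := by
  by_cases hcx : c ∈ x
  · obtain ⟨u, v, W, hxW, hu, hv, hW1, hW2⟩ := split_bothC hcx
    by_cases hex : ∃ α β, ExpCl K (α :: (x ++ [β]))
    · obtain ⟨α, β, y, hy, hab⟩ := hex
      rw [hxW] at hab
      obtain ⟨p, q, Y, hY, hYW, hru, hrv⟩ := exp_cut_bothC (hg y hy) hu hv hW1 hW2 hab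
      have hKY : K Y := hK hy (List.IsInfix.trans ⟨[p], [q], by simp⟩ hY)
      have hgY : GoodC c Y := hg Y hKY
      have key : ∀ α β, ExpCl K (α :: (x ++ [β])) →
          ∃ p q, K (p :: (Y ++ [q])) ∧ RelU c u α p ∧ RelU c v β q := by
        rintro α β ⟨y', hy', hab'⟩
        rw [hxW] at hab'
        obtain ⟨p', q', Y', h1, h2, h3, h4⟩ := exp_cut_bothC (hg y' hy') hu hv hW1 hW2 hab'
        have hKY' : K (p' :: (Y' ++ [q'])) := hK hy' h1
        have hgY' : GoodC c Y' := hg Y' (hK hKY' ⟨[p'], [q'], by simp⟩)
        have : Y' = Y := exp_injC hgY' hgY (by rw [h2, hYW])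
        subst this
        exact ⟨p', q', hKY', h3, h4⟩
      have hI := h Y
      have hur := relU_rev hru
      have hvr := relU_rev hrv
      have hW3 : u = v → Y.reverse = Y → x.reverse = x := by
        intro h1 h2
        have h3 : W.reverse = W := by rw [← hYW, ← exp_reverse, h2]
        rw [hxW, h1]
        simp only [List.reverse_append, hvr, h3, List.append_assoc]
      have hW4 : x.reverse = x → u = v ∧ Y.reverse = Y := by
        intro h1
        rw [hxW] at h1
        simp only [List.reverse_append, hur, hvr] at h1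
        obtain ⟨W', hW'⟩ := hW1
        obtain ⟨W'', hW''⟩ := hW2
        have hWr : W.reverse = c :: W''.reverse := by rw [hW'']; simp
        have h2 : v ++ c :: (W''.reverse ++ u) = u ++ c :: (W' ++ v) := by
          have e1 : v ++ c :: (W''.reverse ++ u) = v ++ (W.reverse ++ u) := by rw [hWr]; simp
          have e2 : u ++ c :: (W' ++ v) = u ++ W ++ v := by rw [hW']; simp
          rw [e1, e2]; exact h1
        obtain ⟨h3, h4⟩ := first_c hv hu h2
        refine ⟨h3.symm, ?_⟩
        have h5 : W''.reverse = W' := by
          rw [h3] at h4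
          exact List.append_cancel_right h4
        have h6 : W.reverse = W := by rw [hWr, h5, ← hW']
        exact exp_injC hgY.rev hgY (by rw [exp_reverse, hYW, h6])
      by_cases hYp : Y.reverse = Y
      · obtain ⟨s', t', hst⟩ := hI.1 hYp
        refine ⟨fun hxp => ?_, fun hxp => ?_⟩
        · obtain ⟨huv, -⟩ := hW4 hxp
          subst huv
          refine ⟨gg c u s', fun α β hab => ?_⟩
          obtain ⟨p, q, h1, h2, h3⟩ := key α β hab
          rcases hst p q h1 with h4 | h4 | ⟨h4, h5⟩
          · left; rw [h2.eq, h4]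
          · right; left; rw [h3.eq, h4]
          · right; right; rw [h2.eq, h4, h3.eq, h5]
        · have huv : u ≠ v := fun hh => hxp (hW3 hh hYp)
          obtain ⟨s, t, hc2⟩ := cross_neC (c := c) huv
            (E := fun p q => K (p :: (Y ++ [q]))) hst
          refine ⟨s, t, fun α β hab => ?_⟩
          obtain ⟨p, q, h1, h2, h3⟩ := key α β hab
          exact hc2 α β p q h2 h3 h1
      · refine ⟨fun hxp => absurd (hW4 hxp).2 hYp, fun _ => ?_⟩
        obtain ⟨s', t', hst⟩ := hI.2 hYp
        refine ⟨gg c u s', gg c v t', fun α β hab => ?_⟩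
        obtain ⟨p, q, h1, h2, h3⟩ := key α β hab
        rcases hst p q h1 with h4 | h4
        · left; rw [h2.eq, h4]
        · right; rw [h3.eq, h4]
    · exact ⟨fun _ => ⟨c, fun p q hpq => absurd ⟨p, q, hpq⟩ hex⟩,
        fun _ => ⟨c, c, fun p q hpq => absurd ⟨p, q, hpq⟩ hex⟩⟩
  · refine ⟨fun _ => ⟨c, fun α β hab => ?_⟩, fun hne => ⟨c, c, fun α β hab => ?_⟩⟩
    · obtain ⟨y, hy, S, T, hST⟩ := hab
      by_cases hα : α = c
      · exact Or.inl hα
      by_cases hβ : β = c
      · exact Or.inr (Or.inl hβ)
      right; right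
      obtain ⟨t, ht⟩ := unaryC (hg y hy) (S := S) (T := T) (u := α :: (x ++ [β])) (by
        simp only [List.mem_cons, List.mem_append, List.not_mem_nil, or_false]
        rintro (h1 | h1 | h1)
        · exact hα h1.symm
        · exact hcx h1
        · exact hβ h1.symm) (by rw [← hST]; simp)
      rw [ht α (by simp), ht β (by simp)]
    · exfalso
      obtain ⟨y, hy, S, T, hST⟩ := hab
      obtain ⟨t, ht⟩ := unaryC (hg y hy) (S := S ++ [α]) (T := [β] ++ T) (u := x) hcx
        (by rw [← hST]; simp)
      apply hne
      have : x = List.replicate x.length t := List.eq_replicate_iff.2 ⟨rfl, ht⟩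
      rw [this]; simp

/-! ### The marked image -/

open Classical in
/-- The marked letter: `(ζ b, m b)`, or `(c, 1)` for the letters which are sent to `c`. -/
noncomputable def mb (c : B) (ζ : A → B) (m : A → ℕ) (b : A) : B × ℕ :=
  if ζ b = c then (c, 1) else (ζ b, m b)

open Classical in
/-- The multiplicity of the marked letter. -/
noncomputable def mm (c : B) (ζ : A → B) (m : A → ℕ) (b : A) : ℕ := if ζ b = c then m b else 1

theorem chainC {c : B} {ζ : A → B} {m : A → ℕ} {a : A} (hca : ζ a = c) (hm : ∀ b, 1 ≤ m b) :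
    ∀ w : List A, (∀ b b', [b, b'] <:+: w → b = a ∨ b' = a) →
      List.IsChain (fun p q : B × ℕ => p = (c, 1) ∨ q = (c, 1))
        (w.flatMap fun b => List.replicate (mm c ζ m b) (mb c ζ m b)) := by
  intro w
  induction w with
  | nil => intro _; simp
  | cons b w ih =>
    intro hw
    rw [List.flatMap_cons, List.isChain_append]
    refine ⟨?_, ih fun d d' hd => hw d d' (hd.trans ⟨[b], [], by simp⟩), ?_⟩
    · by_cases hb : ζ b = c
      · have hrep : ∀ n : ℕ, List.IsChain (fun p q : B × ℕ => p = (c, 1) ∨ q = (c, 1))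
            (List.replicate n ((c, 1) : B × ℕ)) := by
          intro n
          induction n with
          | zero => simp
          | succ n ihn =>
            rw [List.replicate_succ]
            cases n with
            | zero => simp
            | succ n =>
              rw [List.replicate_succ] at ihn ⊢
              exact List.IsChain.cons_cons (Or.inl rfl) ihn
        have : mb c ζ m b = (c, 1) := by simp [mb, hb]
        rw [this]
        exact hrep _
      · have : mm c ζ m b = 1 := by simp [mm, hb]
        rw [this]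
        simp
    · intro x hx y hy
      by_cases hb : ζ b = c
      · left
        have h1 : x ∈ List.replicate (mm c ζ m b) (mb c ζ m b) := List.mem_of_getLast? hx
        rw [(List.mem_replicate.1 h1).2]
        simp [mb, hb]
      · right
        have hba : b ≠ a := by rintro rfl; exact hb hca
        cases w with
        | nil => simp at hy
        | cons b' w =>
          have hb' : b' = a := by
            rcases hw b b' ⟨[], w, by simp⟩ with h1 | h1
            · exact absurd h1 hba
            · exact h1
          subst hb'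
          have h1 : mm c ζ m b' = m b' := by simp [mm, hca]
          have h2 : mb c ζ m b' = (c, 1) := by simp [mb, hca]
          obtain ⟨k, hk⟩ := Nat.exists_eq_add_of_le (hm b')
          rw [List.flatMap_cons, h1, h2, hk, Nat.add_comm, List.replicate_succ] at hy
          simp at hy
          exact hy.symm

theorem goodC_of {L : List A → Prop} {c : B} {ζ : A → B} {m : A → ℕ} {a : A} (hca : ζ a = c)
    (hL : Epi L) (hm : ∀ b, 1 ≤ m b) (hsep : ∀ b b', L [b, b'] → b = a ∨ b' = a)
    (y : List (B × ℕ)) (hy : LX L (mb c ζ m) (mm c ζ m) y) : GoodC c y := by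
  obtain ⟨w, hw, hyw⟩ := hy
  refine ⟨fun p hp => ?_, fun p q hpq => ?_⟩
  · obtain ⟨b, -, hb⟩ := List.mem_flatMap.1 (hyw.subset hp)
    have hb' := (List.mem_replicate.1 hb).2
    by_cases hbc : ζ b = c
    · rw [hb']
      simp [mb, hbc]
    · have h1 : mb c ζ m b = (ζ b, m b) := by simp [mb, hbc]
      rw [hb', h1]
      exact ⟨hm b, fun h => absurd h hbc⟩
  · have h1 := chainC (c := c) (ζ := ζ) (m := m) hca hm w
      fun b b' hb => hsep b b' (hL.fact hw hb)
    obtain ⟨s, t, hst⟩ := hpq.trans hyw
    rw [← hst] at h1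
    have h2 := (List.isChain_append.1 (List.isChain_append.1 h1).1).2.1
    exact (List.isChain_pair (R := fun p q : B × ℕ => p = (c, 1) ∨ q = (c, 1))).1 h2

theorem exp_replicate (p : B × ℕ) (n : ℕ) (hp : p.2 = 1) :
    Exp (List.replicate n p) = List.replicate n p.1 := by
  induction n with
  | zero => rfl
  | succ n ih => rw [List.replicate_succ, exp_cons, ih, hp, List.replicate_succ]; rfl

theorem exp_marked {c : B} {ζ : A → B} {m : A → ℕ} (w : List A) :
    Exp (w.flatMap fun b => List.replicate (mm c ζ m b) (mb c ζ m b)) =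
      w.flatMap fun b => List.replicate (m b) (ζ b) := by
  induction w with
  | nil => rfl
  | cons b w ih =>
    rw [List.flatMap_cons, List.flatMap_cons, exp_append, ih]
    congr 1
    by_cases hb : ζ b = c
    · have h1 : mm c ζ m b = m b := by simp [mm, hb]
      have h2 : mb c ζ m b = (c, 1) := by simp [mb, hb]
      rw [h1, h2, exp_replicate _ _ rfl, hb]
    · have h1 : mm c ζ m b = 1 := by simp [mm, hb]
      have h2 : mb c ζ m b = (ζ b, m b) := by simp [mb, hb]
      rw [h1, h2, List.replicate_one, exp_cons, exp_nil, List.append_nil]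

theorem inv_general {L : List A → Prop} (hL : Epi L) (ζ : A → B) (m : A → ℕ)
    (hm : ∀ b, 1 ≤ m b) (x : List B) : Inv' (LX L ζ m) x := by
  obtain ⟨a, ha, hsep⟩ := exists_sep hL
  have h1 : ∀ z : List (B × ℕ), Inv (LX L (mb (ζ a) ζ m) (mm (ζ a) ζ m)) z := by
    intro z
    refine inv_main (z.length + 1) L hL (mb (ζ a) ζ m) (mm (ζ a) ζ m) ?_ (ζ a, 1) ?_ z
      (Nat.lt_succ_self _)
    · intro b
      unfold mm
      split_ifs
      · exact hm b
      · exact le_rfl
    · intro b hb
      unfold mb at hb
      unfold mm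
      split_ifs with h2
      · rw [if_pos h2] at hb
        exact absurd rfl hb
      · rfl
  have h2 := inv_expC (c := ζ a) (K := LX L (mb (ζ a) ζ m) (mm (ζ a) ζ m))
    (fun h1 h2 => LX_sub h1 h2) (goodC_of rfl hL hm hsep) h1 x
  have h3 : ∀ y, LX L ζ m y → ExpCl (LX L (mb (ζ a) ζ m) (mm (ζ a) ζ m)) y := by
    rintro y ⟨w, hw, hy⟩
    refine ⟨_, ⟨w, hw, List.infix_rfl⟩, ?_⟩
    rw [exp_marked]
    exact hy
  refine ⟨fun hx => ?_, fun hx => ?_⟩
  · obtain ⟨s, hs⟩ := h2.1 hx
    exact ⟨s, fun p q hpq => hs p q (h3 _ hpq)⟩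
  · obtain ⟨s, t, hs⟩ := h2.2 hx
    exact ⟨s, t, fun p q hpq => hs p q (h3 _ hpq)⟩

/-! ### The image of the infinite word -/

theorem pw_length {ζ : A → B} {m : A → ℕ} (hm : ∀ b, 1 ≤ m b) (w : List A) :
    w.length ≤ (w.flatMap (pw ζ m)).length := by
  induction w with
  | nil => simp
  | cons b w ih =>
    rw [List.flatMap_cons]
    have := hm b
    simp only [List.length_cons, List.length_append, pw, List.length_replicate] at ih ⊢
    omega

theorem pw_reverse {ζ : A → B} {m : A → ℕ} (w : List A) :
    (w.flatMap (pw ζ m)).reverse = w.reverse.flatMap (pw ζ m) := by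
  induction w with
  | nil => rfl
  | cons b w ih =>
    rw [List.flatMap_cons, List.reverse_append, ih, List.reverse_cons, List.flatMap_append]
    simp [pw]

theorem exists_image (ζ : A → B) (m : A → ℕ) (hm : ∀ b, 1 ≤ m b) (u : ℕ → A) :
    ∃ v, IsImage ζ m u v := by
  have hlen : ∀ n, n ≤ ((fac u 0 n).flatMap (pw ζ m)).length := by
    intro n
    have := pw_length (ζ := ζ) hm (fac u 0 n)
    rwa [fac_length] at this
  have hpre : ∀ {n k}, n ≤ k →
      (fac u 0 n).flatMap (pw ζ m) <+: (fac u 0 k).flatMap (pw ζ m) := by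
    intro n k hnk
    obtain ⟨t, ht⟩ := fac_prefix u 0 hnk
    exact ⟨t.flatMap (pw ζ m), by rw [← ht, List.flatMap_append]⟩
  refine ⟨fun i => ((fac u 0 (i + 1)).flatMap (pw ζ m))[i]'(lt_of_lt_of_le (Nat.lt_succ_self i)
    (hlen (i + 1))), fun n => ⟨((fac u 0 n).flatMap (pw ζ m)).length, ?_⟩⟩
  apply List.ext_getElem
  · rw [fac_length]
  · intro i h1 h2
    rw [fac_getElem]
    simp only [Nat.zero_add]
    rcases le_total n (i + 1) with h | h
    · exact (hpre h).getElem h1
    · exact ((hpre h).getElem _).symm

theorem rich_image {u : ℕ → A} (hu : Episturmian u) (ζ : A → B) (m : A → ℕ)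
    (hm : ∀ b, 1 ≤ m b) (v : ℕ → B) (hv : IsImage ζ m u v) : Rich v := by
  have hL := epi_lang hu
  have hcov : ∀ w, Lang v w → ∃ n, w <:+: (fac u 0 n).flatMap (pw ζ m) := by
    rintro w ⟨i, hi⟩
    obtain ⟨k, hk⟩ := hv (i + w.length)
    refine ⟨i + w.length, ?_⟩
    have h1 := pw_length (ζ := ζ) hm (fac u 0 (i + w.length))
    rw [hk, fac_length, fac_length] at h1
    rw [hk, hi]
    exact fac_infix v (Nat.zero_le i) (by omega)
  have hrev : ∀ w, Lang v w → Lang v w.reverse := by
    intro w hw
    obtain ⟨n, hn⟩ := hcov w hw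
    obtain ⟨j, hj⟩ := hu.1 _ (lang_fac u 0 n)
    rw [List.length_reverse, fac_length] at hj
    have h1 : w.reverse <:+: (fac u j n).flatMap (pw ζ m) := by
      rw [← hj, ← pw_reverse, List.reverse_infix]
      exact hn
    obtain ⟨s, t, hst⟩ := fac_infix u (Nat.zero_le j) (show j + n ≤ 0 + (j + n) by omega)
    obtain ⟨k, hk⟩ := hv (j + n)
    have h2 : w.reverse <:+: fac v 0 k := by
      rw [← hk, ← hst]
      exact h1.trans ⟨s.flatMap (pw ζ m), t.flatMap (pw ζ m), by simp⟩
    exact (lang_fac v 0 k).sub h2
  have hsub : ∀ w, Lang v w → LX (Lang u) ζ m w := by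
    intro w hw
    obtain ⟨n, hn⟩ := hcov w hw
    exact ⟨fac u 0 n, lang_fac _ _ _, hn⟩
  have hF : ∀ w, FF v w := fun w => ff_of_inv' (inv_general hL ζ m hm w) hsub
  have hP : ∀ n, Pot v n := by
    intro n
    induction n with
    | zero => exact pot_zero _
    | succ n ih => exact pot_succ hrev ih (fun w _ => hF w)
  intro w hw
  obtain ⟨i, hi⟩ := hw
  unfold RichWord
  have := rich_of_ret (ret_of_pot hP) i w.length
  rwa [← hi] at this

end Pool.Agent.KS7_39.D56
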